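import Pool.Agent.Helper11.M3.GoalsA
import Pool.Agent.Helper11.M3.BLG
import Pool.Agent.Helper11.R.BLU2
import Pool.Agent.Helper77.PPS.Asm

/-!
# M3-A_BL5: the field `bl₅` of `Hyp₄`
-/

set_option autoImplicit false

namespace Pool.Agent.Helper64.M3

open NumberField Polynomial Module IsDedekindDomain
open Pool.Agent.Helper51.RP Pool.Agent.Helper42.RD Pool.Agent.Helper42.PP Pool.Agent.Helper42.PP1
open Pool.Agent.Helper42.PB Pool.Agent.Helper11.PP Pool.Agent.Helper76.PP Pool.Agent.Helper76.PB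
open Pool.Agent.Helper17.PP (Sys)
open Pool.Agent.Helper51.PP (Chs)
open Pool.Agent.Helper77.PPS (mono_bound fib_bound a1_unb)
open Pool.Agent.Helper11.M3

/-- A number field with a primitive root of unity of odd prime order is totally complex. -/
theorem tc_of_prim {p : ℕ} [Fact p.Prime] (hp : p ≠ 2) {K₁ : Type} [Field K₁] [NumberField K₁]
    {ε : K₁} (h : IsPrimitiveRoot ε p) : IsTotallyComplex K₁ := by
  have h2 : 2 < p := lt_of_le_of_ne (Fact.out : p.Prime).two_le (Ne.symm hp)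
  rw [← NumberField.nrRealPlaces_eq_zero_iff]
  exact NumberField.InfinitePlace.IsPrimitiveRoot.nrRealPlaces_eq_zero_of_two_lt h2 h

theorem psK_mul {p : ℕ} [Fact p.Prime] {P : (ZMod p)[X]} [Fact (Irreducible P)]
    (tr : AdjoinRoot P →ₗ[ZMod p] ZMod p) (ψ₁ : AddChar (ZMod p) ℂ) (s t : AdjoinRoot P)
    (κ : ZMod p) : psK tr ψ₁ (s * (t * algebraMap (ZMod p) (AdjoinRoot P) κ)) =
      ψ₁ (tr (s * t) * κ) := by
  have h1 : s * (t * algebraMap (ZMod p) (AdjoinRoot P) κ) = κ • (s * t) := by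
    rw [Algebra.smul_def]
    ring
  rw [h1]
  change ψ₁ (tr (κ • (s * t))) = _
  rw [map_smul, smul_eq_mul, mul_comm]

theorem a_bl5 (hBLG : A_BLG) (hBLH : A_BLH) (hNZO : A_NZO) : A_BL5 := by
  intro p _ K M K₁ M₁ _ _ _ _ _ _ _ _ _ _ _ _ _ _ ε δ P _ _ hs hO B hN n E V s0 aτ hV tr ψ₁ htr
    hψ₁ Ka hKa
  have htc : IsTotallyComplex K₁ := tc_of_prim hO.two hs.prim
  obtain ⟨n1, n2, n3, n4⟩ := hNZO p K M K₁ M₁ ε δ P hs hO tr htr
  obtain ⟨X1, hC1, hV1⟩ := hBLH p K M K₁ M₁ ε δ P hs B n E V s0 aτ hV ψ₁ hψ₁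
  obtain ⟨X2, hC2, hV2⟩ := hBLG p K M K₁ M₁ ε δ P hs B hN n E V s0 aτ hV tr ψ₁ hψ₁
  obtain ⟨Kb, hKb1, hKb⟩ := blP (sysB B E V s0 aτ) K₁ (a1_unb K₁) Ka (Fintype.card (ZMod p)ˣ) hKa
    (fun b₀ ↦ fib_bound B b₀) (ZMod p)ˣ (fun q ↦ q.1.2) (modu p K₁ B.S) (finrank K K₁)
  obtain ⟨Kc, hKc1, hKc⟩ := blP (sysB B E V s0 aτ) M₁ (a1_unb M₁) Ka (Fintype.card (ZMod p)ˣ) hKa
    (fun b₀ ↦ fib_bound B b₀) (ZMod p)ˣ (fun q ↦ q.1.2) (modu p M₁ B.S) (finrank K M₁)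
  refine ⟨max Kb Kc, le_trans hKb1 (le_max_left _ _), fun K' hK' N Y hY => ?_⟩
  have hKb' : Kb ≤ K' := (le_max_left _ _).trans hK'
  have hKc' : Kc ≤ K' := (le_max_right _ _).trans hK'
  intro i j t s y α β X hi hj hij ht hy hsy hX hα hβ
  have hij' : i ≠ j ∨ ∀ q ∈ {q : B.LP | q.1.1 ∈ V}, ∀ q₁ ∈ {q : B.LP | N q},
      (sysB B E V s0 aτ).bs q ≠ (sysB B E V s0 aτ).bs q₁ := by
    rcases hij with h | h
    · exact Or.inl h
    · right
      intro q hq q₁ hq₁ he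
      exact h q₁ hq₁ (((sysB B E V s0 aτ).bsS q q₁ he).1 hq)
  have hi' : (1 : ℝ) ≤ i := by exact_mod_cast hi
  by_cases hy0 : y = 0
  · subst hy0
    have hs0 : s ≠ 0 := by
      rcases hsy with h | h
      · exact h
      · exact absurd rfl h
    have htr0 : tr (s * t) ≠ 0 := fun h => mul_ne_zero hs0 ht (n1 _ h)
    have h1 := hKb (fun q ↦ q.1.1.asIdeal.map (algebraMap (𝓞 K) (𝓞 K₁))) (fun q ↦ B.Q q.1.1)
      {q | N q} {q | q.1.1 ∈ V} (fun q e ↦ X1 q (tr (s * t)) e)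
      (fun q q₁ ↦ psK tr ψ₁ (s * (t * algebraMap (ZMod p) (AdjoinRoot P)
        ((sysB B E V s0 aτ).kap q q₁)) + 0 * (t * (sysB B E V s0 aτ).a q₁ q)))
      (fun e ↦ hC1 (fun _ ↦ tr (s * t)) e _ _ (fun q hq ↦ hq.2) (fun q hq ↦ ⟨hq, htr0⟩))
      (fun q hq q₁ _ hne ↦ by
        rw [zero_mul, add_zero, psK_mul]
        exact hV1 (tr (s * t)) q q₁ hq hne) i j α β X hi hj hij' hX hα hβ
    refine le_trans (le_of_eq ?_) (h1.trans ?_)
    · congr 1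
    · have hm := mono_bound Kb K' i j (min i j) (Real.exp (-((2 : ℝ) ^ (i + j) / (2 * X))))
        ((i : ℝ) + j) hKb1 hKb' (Real.exp_pos _).le
        (by linarith [Nat.cast_nonneg (α := ℝ) j])
      rw [Nat.cast_min] at hm
      exact hm
  · obtain ⟨hroot, hall⟩ : AdjoinRoot.root P ≠ 1 ∧ ∀ q : B.LP, q.1.1 ∈ V := by
      rcases hY with h | h
      · rw [h, AddSubgroup.mem_bot] at hy
        exact absurd hy hy0
      · exact h
    have h1 := hKc (fun q ↦ q.1.1.asIdeal.map (algebraMap (𝓞 K) (𝓞 M₁))) (fun q ↦ B.W q.1.1)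
      {q | N q} {q | q.1.1 ∈ V} (fun q e ↦ X2 q t s 0 y e)
      (fun q q₁ ↦ psK tr ψ₁ (s * (t * algebraMap (ZMod p) (AdjoinRoot P)
        ((sysB B E V s0 aτ).kap q q₁)) + y * (t * (sysB B E V s0 aτ).a q₁ q)))
      (fun e ↦ hC2 (fun _ ↦ t) (fun _ ↦ s) (fun _ ↦ 0) (fun _ ↦ y) e _ _
        (fun q hq ↦ ⟨hall q, hq.2⟩) (fun q hq ↦ hq) (fun q _ ↦ by
          have h2 := n4 hroot (t * y) (-((e : ZMod p) * (q.1.2 : ZMod p)⁻¹ * tr (s * t)))
            (Or.inl (mul_ne_zero ht hy0))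
          rw [mul_zero, mul_zero, map_zero, mul_zero, neg_zero]
          exact h2))
      (fun q hq q₁ _ hne ↦ by
        have h2 := hV2 t s 0 y q q₁ hq (hall q₁) hne
        rw [h2, zero_mul, zero_add, zero_mul, add_zero]) i j α β X hi hj hij' hX hα hβ
    refine le_trans (le_of_eq ?_) (h1.trans ?_)
    · congr 1
    · have hm := mono_bound Kc K' i j (min i j) (Real.exp (-((2 : ℝ) ^ (i + j) / (2 * X))))
        ((i : ℝ) + j) hKc1 hKc' (Real.exp_pos _).le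
        (by linarith [Nat.cast_nonneg (α := ℝ) j])
      rw [Nat.cast_min] at hm
      exact hm

end Pool.Agent.Helper64.M3
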