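import Pool.Agent.Helper11.M3.Goals4b

/-!
# Project M3: packet Q_SMB (comparison of the thresholds)
-/

set_option autoImplicit false

namespace Pool.Agent.Helper64.M3

open Finset Filter Pool.Agent.Helper17.PP Pool.Agent.Helper11.M3

theorem pow_le_two_pow (k : ℕ) : ∃ n₀ : ℕ, ∀ n, n₀ ≤ n → n ^ k ≤ 2 ^ n := by
  have h := tendsto_pow_const_div_const_pow_of_one_lt k (one_lt_two : (1 : ℝ) < 2)
  have h1 := h.eventually (gt_mem_nhds (zero_lt_one : (0 : ℝ) < 1))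
  obtain ⟨n₀, hn₀⟩ := eventually_atTop.1 h1
  refine ⟨n₀, fun n hn => ?_⟩
  have h2 := hn₀ n hn
  rw [div_lt_one (by positivity)] at h2
  have h3 : ((n ^ k : ℕ) : ℝ) < ((2 ^ n : ℕ) : ℝ) := by
    push_cast
    exact h2
  exact (Nat.cast_lt.1 h3).le

/-- **Q_SMB.** -/
theorem q_smb : Pool.Agent.Helper11.M3.Q_SMB := by
  intro A A₅ j₀ hA
  obtain ⟨n₀, hn₀⟩ := pow_le_two_pow (2 * A₅)
  set M := n₀ + A + j₀ + 3 with hM
  refine ⟨2 ^ M, fun L hL => ?_⟩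
  have hL0 : L ≠ 0 := by
    have : 0 < 2 ^ M := pow_pos (by norm_num) _
    omega
  set m := Nat.log 2 L with hm
  have hmM : M ≤ m := by
    rw [hm]
    exact Nat.le_log_of_pow_le (by norm_num) hL
  have h2m : 2 ^ m ≤ L := Nat.pow_log_le_self 2 hL0
  have hm3 : 3 ≤ m := by omega
  have hpow2 : m ^ 2 ≤ m ^ A₅ := Nat.pow_le_pow_right (by omega) hA
  have hmle : m ≤ m ^ A₅ := Nat.le_self_pow (by omega) m
  have h1 : A * m + j₀ ≤ m ^ A₅ := by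
    refine le_trans ?_ hpow2
    have h3 : j₀ ≤ j₀ * m := Nat.le_mul_of_pos_right _ (by omega)
    calc A * m + j₀ ≤ A * m + j₀ * m := Nat.add_le_add_left h3 _
      _ = (A + j₀) * m := by ring
      _ ≤ m * m := Nat.mul_le_mul_right _ (by omega)
      _ = m ^ 2 := by ring
  have h2 : m ^ A₅ ≤ Nat.sqrt L := by
    rw [Nat.le_sqrt]
    calc m ^ A₅ * m ^ A₅ = m ^ (2 * A₅) := by rw [← pow_add, two_mul]
      _ ≤ 2 ^ m := hn₀ m (by omega)
      _ ≤ L := h2m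
  have h4 : 3 ≤ Nat.sqrt L := by omega
  refine ⟨?_, ?_, ?_, ?_⟩
  · show A * Nat.log 2 L + j₀ ≤ Nat.log 2 L ^ A₅
    exact h1
  · show Nat.log 2 L ^ A₅ ≤ Nat.sqrt L
    exact h2
  · show 2 * (Nat.log 2 L ^ A₅ + 1) ≤ L
    have h5 : Nat.sqrt L * Nat.sqrt L ≤ L := Nat.sqrt_le L
    have h6 : 2 * (m ^ A₅ + 1) ≤ 2 * (Nat.sqrt L + 1) := by omega
    refine h6.trans (le_trans ?_ h5)
    nlinarith
  · omega

end Pool.Agent.Helper64.M3
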